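import Pool.Agent.H343.QF.StG

set_option autoImplicit false

/-! QF-G2: projections on the lines of `a`. -/

namespace Pool.Agent.H358.QF

open Pool.Agent.TH68 Pool.Agent.Helper97.Hyp Pool.Agent.H343.AN Pool.Agent.H343.QF

/-- distances on a line -/
theorem dist_line {Γ : Type} [Group Γ] {W : WNorm Γ} {a b : Γ} {δ D : ℝ} (hG : Good W a b δ D)
    (v : Γ) (i j : ℤ) : dist (pt W (v * a ^ i)) (pt W (v * a ^ j)) = |(j : ℝ) - i| := by
  rw [dist_def, out_pt, out_pt]
  have h1 : (v * a ^ i)⁻¹ * (v * a ^ j) = a ^ (j - i) := by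
    rw [mul_inv_rev, ← zpow_neg, mul_assoc, inv_mul_cancel_left, ← zpow_add]
    congr 1
    ring
  rw [h1]
  have h2 := hG.pow (j - i)
  have h3 : ((W.ℓ (a ^ (j - i)) : ℤ) : ℝ) = ((|j - i| : ℤ) : ℝ) := by rw [h2]
  push_cast at h3
  exact h3

theorem mem_Ln {Γ : Type} [Group Γ] (W : WNorm Γ) (a v : Γ) (i : ℤ) :
    pt W (v * a ^ i) ∈ Ln W a v := ⟨i, rfl⟩

theorem lnproj : S_lnproj := by
  intro Γ _ W a b δ D hG v x
  have hδ := hG.one
  -- nearest point
  obtain ⟨q, hq, hmin⟩ : ∃ q ∈ Ln W a v, ∀ y ∈ Ln W a v, nd x q ≤ nd x y := by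
    classical
    have hex : ∃ n : ℕ, ∃ q ∈ Ln W a v, nd x q = n := ⟨_, _, mem_Ln W a v 0, rfl⟩
    obtain ⟨q, hq, hqn⟩ := Nat.find_spec hex
    refine ⟨q, hq, fun y hy => ?_⟩
    rw [hqn]
    exact Nat.find_min' hex ⟨y, hy, rfl⟩
  have hmin' : ∀ y ∈ Ln W a v, dist x q ≤ dist x y := by
    intro y hy
    rw [dist_eq_nd, dist_eq_nd]
    exact_mod_cast hmin y hy
  refine ⟨q, hq, ?_⟩
  rintro y ⟨j, rfl⟩
  obtain ⟨i, rfl⟩ := hq
  -- the number m
  obtain ⟨m, hm1, hm2⟩ : ∃ m : ℕ, 2 * δ < m ∧ (m : ℝ) ≤ 3 * δ := by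
    refine ⟨⌊2 * δ⌋₊ + 1, ?_, ?_⟩
    · push_cast
      exact Nat.lt_floor_add_one _
    · have := Nat.floor_le (show (0 : ℝ) ≤ 2 * δ by linarith)
      push_cast
      linarith
  have hd := dist_line hG v i j
  by_cases hsmall : |(j : ℝ) - i| ≤ m
  · rw [hd]
    have := hmin' _ (mem_Ln W a v j)
    linarith
  push Not at hsmall
  -- the intermediate point
  obtain ⟨k, hk1, hk2⟩ : ∃ k : ℤ, |(k : ℝ) - i| = m ∧ |(j : ℝ) - k| = |(j : ℝ) - i| - m := by
    rcases le_total i j with h | h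
    · have h' : (i : ℝ) ≤ j := by exact_mod_cast h
      rw [abs_of_nonneg (by linarith)] at hsmall
      refine ⟨i + m, ?_, ?_⟩
      · push_cast
        rw [add_sub_cancel_left, abs_of_nonneg (Nat.cast_nonneg m)]
      · push_cast
        rw [abs_of_nonneg (by linarith), abs_of_nonneg (by linarith)]
        ring
    · have h' : (j : ℝ) ≤ i := by exact_mod_cast h
      rw [abs_of_nonpos (by linarith)] at hsmall
      refine ⟨i - m, ?_, ?_⟩
      · push_cast
        rw [show (i : ℝ) - m - i = -m by ring, abs_neg, abs_of_nonneg (Nat.cast_nonneg m)]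
      · push_cast
        rw [abs_of_nonpos (by linarith), abs_of_nonpos (by linarith)]
        ring
  have e1 := dist_line hG v i k
  have e2 := dist_line hG v k j
  rw [hk1] at e1
  rw [hk2] at e2
  have e3 := hmin' _ (mem_Ln W a v k)
  rcases exc_split hG.hyp (pt W (v * a ^ i)) (pt W (v * a ^ j)) x (pt W (v * a ^ k)) with h | h
  · exfalso
    unfold exc at h
    rw [dist_comm (pt W (v * a ^ k)) x, dist_comm (pt W (v * a ^ i)) x] at h
    linarith
  · unfold exc at h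
    linarith

end Pool.Agent.H358.QF
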