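import Pool.Agent.H343.QF.StG

set_option autoImplicit false

/-! QF-G5: small angles at the corners. -/

namespace Pool.Agent.H358.QF

open Pool.Agent.TH68 Pool.Agent.Helper97.Hyp Pool.Agent.H343.AN Pool.Agent.H343.QF

theorem G5.step_dist {Γ : Type} [Group Γ] {W : WNorm Γ} (y s : Γ) :
    dist (pt W y) (pt W (y * s)) = (W.ℓ s : ℝ) := by
  rw [dist_def, out_pt, out_pt, inv_mul_cancel_left]

theorem lc : S_lnproj → S_malpair → S_lc := by
  intro hln hmp Γ _ W a b δ D R hG X lam s E Λ hC hR j t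
  have hδ := hG.one
  have hδD := hG.le
  have hne : ∀ v : Γ, (Ln W a v).Nonempty := fun v => ⟨pt W (v * a ^ (0 : ℤ)), 0, rfl⟩
  have key : ∀ t' t : ℤ, exc (pt W (X j * a ^ t')) (pt W (X (j + 1) * a ^ t)) (pt W (X (j + 1)))
      ≤ 24 * D + 4 * R := by
    intro t' t
    -- the exit point
    have hstep := hC.step j
    have hY : pt W (X j * a ^ lam j) ∈ Ln W a (X j) :=
      ⟨(lam j : ℤ), by rw [zpow_natCast]⟩
    have hd1 : dist (pt W (X j * a ^ lam j)) (pt W (X (j + 1))) ≤ R := by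
      rw [hstep, G5.step_dist]
      exact hC.short j
    have hnm : (X j)⁻¹ * X (j + 1) ∉ Subgroup.zpowers a := by
      rw [hstep, mul_assoc, inv_mul_cancel_left]
      intro h
      apply hC.nm j
      have h2 : a ^ lam j ∈ Subgroup.zpowers a := ⟨(lam j : ℤ), by simp⟩
      exact (Subgroup.mul_mem_cancel_left _ h2).1 h
    have hmp1 := hmp hG (X (j + 1)) (X j) hnm 0 t
    rw [zpow_zero, mul_one] at hmp1
    have hpd1 := pd_le_dist (hne (X j)) (pt W (X j * a ^ lam j)) (pt W (X (j + 1)))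
    have hpd2 := pd_tri (hne (X j)) (pt W (X j * a ^ lam j)) (pt W (X (j + 1)))
      (pt W (X (j + 1) * a ^ t))
    obtain ⟨π, hπ⟩ := hln hG (X j) (pt W (X (j + 1) * a ^ t))
    have hYp : IsProj (6 * δ) (Ln W a (X j)) (pt W (X j * a ^ lam j))
        (pt W (X j * a ^ lam j)) := by
      refine ⟨hY, fun y _ => ?_⟩
      rw [dist_self]
      linarith
    have h1 := le_pd_of_proj hYp hπ
    have h2 := hπ.2 (pt W (X j * a ^ t')) ⟨t', rfl⟩
    have h3 : exc (pt W (X j * a ^ t')) (pt W (X (j + 1) * a ^ t)) π ≤ 6 * δ := by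
      unfold exc
      rw [dist_comm (pt W (X j * a ^ t')) π, dist_comm π (pt W (X (j + 1) * a ^ t)),
        dist_comm (pt W (X j * a ^ t')) (pt W (X (j + 1) * a ^ t))]
      linarith
    have h4 := exc_move (pt W (X j * a ^ t')) (pt W (X (j + 1) * a ^ t)) π (pt W (X (j + 1)))
    have h5 := dist_triangle π (pt W (X j * a ^ lam j)) (pt W (X (j + 1)))
    rw [dist_comm π (pt W (X j * a ^ lam j))] at h5
    linarith
  have hkey : ∀ t' t : ℤ, exc (pt W (X j * a ^ t')) (pt W (X (j + 1) * a ^ t))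
      (pt W (X (j + 1))) ≤ 50 * (D + R) := fun t' t => by
    have := key t' t
    linarith
  refine ⟨?_, ?_, hkey t t, fun t' => hkey t' t⟩
  · have := hkey 0 t
    rwa [zpow_zero, mul_one] at this
  · have h1 := key t (lam (j + 1))
    have h2 := exc_move_right (pt W (X j * a ^ t)) (pt W (X (j + 1) * a ^ (lam (j + 1) : ℤ)))
      (pt W (X (j + 2))) (pt W (X (j + 1)))
    have h3 : dist (pt W (X (j + 1) * a ^ (lam (j + 1) : ℤ))) (pt W (X (j + 2))) ≤ R := by
      have hstep := hC.step (j + 1)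
      rw [show j + 1 + 1 = j + 2 by ring] at hstep
      rw [hstep, zpow_natCast, G5.step_dist]
      exact hC.short (j + 1)
    linarith

end Pool.Agent.H358.QF
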