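import Pool.Agent.H343.QF.StG

set_option autoImplicit false

/-! QF-G6: corners are near geodesics. -/

namespace Pool.Agent.H358.QF

open Pool.Agent.TH68 Pool.Agent.Helper97.Hyp Pool.Agent.H343.AN Pool.Agent.H343.QF

theorem G6.step_dist {Γ : Type} [Group Γ] {W : WNorm Γ} (y s : Γ) :
    dist (pt W y) (pt W (y * s)) = (W.ℓ s : ℝ) := by
  rw [dist_def, out_pt, out_pt, inv_mul_cancel_left]

/-- distance of consecutive corners -/
theorem G6.next_dist {Γ : Type} [Group Γ] {W : WNorm Γ} {a b : Γ} {δ D R : ℝ} {X : ℤ → Γ}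
    {lam : ℤ → ℕ} {s : ℤ → Γ} {E Λ : ℕ} (H : Hyp5 W a b δ D R X lam s E Λ) (j : ℤ) :
    (lam j : ℝ) - R ≤ dist (pt W (X j)) (pt W (X (j + 1))) ∧
      dist (pt W (X j)) (pt W (X (j + 1))) ≤ lam j + R := by
  have h1 : dist (pt W (X j)) (pt W (X j * a ^ lam j)) = lam j := by
    rw [G6.step_dist]
    have h2 := H.good.pow (lam j)
    rw [zpow_natCast] at h2
    have h3 : (W.ℓ (a ^ lam j) : ℤ) = lam j := by
      rw [h2]; exact abs_of_nonneg (Int.natCast_nonneg _)
    exact_mod_cast h3
  have h2 : dist (pt W (X j * a ^ lam j)) (pt W (X (j + 1))) ≤ R := by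
    rw [H.cor.step j, G6.step_dist]
    exact H.cor.short j
  have h3 := dist_triangle (pt W (X j)) (pt W (X (j + 1))) (pt W (X j * a ^ lam j))
  have h4 := dist_triangle (pt W (X j)) (pt W (X j * a ^ lam j)) (pt W (X (j + 1)))
  rw [dist_comm (pt W (X (j + 1)))] at h3
  constructor <;> linarith

theorem cor1 : S_bg1 → S_lc → S_cor1 := by
  intro hbg hlc Γ _ W a b δ D R X lam s E Λ H
  have hδ := H.good.one
  have hδD := H.good.le
  have hR := H.hR
  have hE := H.hE
  have lc := fun j t => hlc H.good H.cor (by linarith : (0 : ℝ) ≤ R) j t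
  have key : ∀ (j m k t t' : ℤ), j + 1 ≤ m → m ≤ k →
      exc (pt W (X j * a ^ t)) (pt W (X k * a ^ t')) (pt W (X m)) ≤ 100 * (D + R) := by
    intro j m k t t' hjm hmk
    obtain ⟨n0, rfl⟩ : ∃ n0 : ℕ, k = j + (n0 + 1) := ⟨(k - j - 1).toNat, by omega⟩
    obtain ⟨l, rfl⟩ : ∃ l : ℕ, m = j + (l + 1) := ⟨(m - j - 1).toNat, by omega⟩
    have hl : l ≤ n0 := by omega
    let Z : ℕ → Pt W := fun i => if i = 0 then pt W (X j * a ^ t) else
      if i ≤ n0 + 1 then pt W (X (j + i)) else pt W (X (j + (n0 + 1)) * a ^ t')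
    have Z0 : Z 0 = pt W (X j * a ^ t) := rfl
    have Zm : ∀ i : ℕ, i ≤ n0 → Z (i + 1) = pt W (X (j + (i + 1))) := by
      intro i hi
      change (if i + 1 = 0 then _ else if i + 1 ≤ n0 + 1 then _ else _) = _
      rw [if_neg (by omega), if_pos (by omega)]
      push_cast
      rfl
    have Ze : Z (n0 + 2) = pt W (X (j + (n0 + 1)) * a ^ t') := by
      change (if n0 + 2 = 0 then _ else if n0 + 2 ≤ n0 + 1 then _ else _) = _
      rw [if_neg (by omega), if_neg (by omega)]
    have h := hbg (κ := 50 * (D + R)) Z (n0 + 2) H.good.hyp (by linarith) ?_ ?_ (l + 1) (by omega)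
    · rw [Z0, Ze, Zm l hl] at h
      linarith
    · intro i hi
      rcases Nat.eq_zero_or_pos i with rfl | hi0
      · rcases Nat.eq_zero_or_pos n0 with h0 | h0
        · subst h0
          have e1 := Zm 0 le_rfl
          rw [Z0, e1]
          change exc _ (Z (0 + 2)) _ ≤ _
          rw [Ze]
          have := (lc j t').2.2.2 t
          simpa using this
        · have e1 := Zm 0 (by omega)
          have e2 := Zm 1 (by omega)
          change exc (Z 0) (Z (1 + 1)) (Z (0 + 1)) ≤ _
          rw [Z0, e1, e2]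
          have := (lc j t).2.1
          push_cast
          exact this
      · obtain ⟨i, rfl⟩ : ∃ i', i = i' + 1 := ⟨i - 1, by omega⟩
        have e1 := Zm i (by omega)
        have e2 := Zm (i + 1) (by omega)
        rw [e1, show i + 1 + 1 = (i + 1) + 1 by rfl, e2]
        rcases Nat.lt_or_ge (i + 1) n0 with h0 | h0
        · have e3 := Zm (i + 2) (by omega)
          change exc _ (Z (i + 2 + 1)) _ ≤ _
          rw [e3]
          have := (lc (j + (i + 1)) 0).2.1
          rw [zpow_zero, mul_one] at this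
          push_cast
          rw [show j + ((i : ℤ) + 2 + 1) = j + (i + 1) + 2 by ring,
            show j + ((i : ℤ) + 1 + 1) = j + (i + 1) + 1 by ring]
          exact this
        · have h1 : n0 = i + 1 := by omega
          have e3 : Z (i + 1 + 2) = pt W (X (j + (i + 1) + 1) * a ^ t') := by
            rw [show i + 1 + 2 = n0 + 2 by omega, Ze, h1]
            push_cast
            rw [show j + ((i : ℤ) + 1 + 1) = j + (i + 1) + 1 by ring]
          rw [e3]
          have := (lc (j + (i + 1)) t').1
          push_cast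
          rw [show j + ((i : ℤ) + 1 + 1) = j + (i + 1) + 1 by ring]
          exact this
    · intro i hi
      have e1 := Zm i (by omega)
      have e2 := Zm (i + 1) (by omega)
      rw [e1, show i + 2 = i + 1 + 1 by rfl, e2]
      have h1 := (G6.next_dist H (j + (i + 1))).1
      have h2 : (E : ℝ) ≤ lam (j + (i + 1)) := by exact_mod_cast H.cor.lo (j + (i + 1))
      push_cast
      rw [show j + ((i : ℤ) + 1 + 1) = j + (i + 1) + 1 by ring]
      linarith
  refine ⟨?_, ?_, key⟩
  · intro i m j t him hmj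
    rcases him.eq_or_lt with rfl | him
    · rw [exc_left]
      linarith
    · have := key i m j 0 t (by omega) hmj
      rwa [zpow_zero, mul_one] at this
  · intro j m k t hjm hmk
    have := key j m k t 0 hjm hmk
    rwa [zpow_zero, mul_one] at this

end Pool.Agent.H358.QF
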